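import Pool.Agent.Helper41.LD4.Cst

/-!
# Project LD4, block EV: the requirements hold on all large levels
-/

set_option autoImplicit false

namespace Pool.Agent.Helper30.LD4

open Set MeasureTheory Filter Topology
open Pool.Agent.Helper41.LD (av var haar DiscLe Dioph Kk)
open Pool.Agent.Helper41.LD2 (EqA)
open Pool.Agent.Helper41.LD3 (Cst Us tm fr lamG)
open Pool.Agent.Helper41.LD4

variable {κ : ℕ} {τ : ℕ → ℝ} {ty : ℕ → ℕ × ℕ × ℕ} {g Q R CF DF Cb m Cq G K : ℕ}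

/-- the test exponents, for any property `P K Q₀ ε h u` of the exponent -/
theorem ev_test_gen {c : ℕ} (hκ : 1 ≤ κ) (H : Cst τ g Q R CF DF Cb G) (P : ℕ → ℕ → ℝ → ℕ → ℕ → Prop)
    (h : ∃ (C₀ : ℕ) (D : ℝ), 0 < D ∧ ∀ᶠ K : ℕ in atTop, ∃ (Q₀ : ℕ) (ε : ℝ), (Q₀ : ℝ) + 1 ≤ Real.exp (D * (K : ℝ) ^ (2 * κ)) ∧ 0 ≤ ε ∧
      ε ≤ (1 / 2) ^ (12 * K) ∧ ∀ h < g, ∀ e < Q, ∀ u₀ : ℕ, ∃ u : ℕ, u₀ ≤ u ∧ u < u₀ + C₀ * K ∧ u % Q = e ∧ P K Q₀ ε h u) :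
    ∀ᶠ K : ℕ in atTop, ∃ (Q₀ : ℕ) (ε : ℝ), 0 ≤ ε ∧ ε ≤ (1 / 2) ^ (12 * K) ∧ ∀ h < g, ∀ e < Q, ∀ ℓ : ℝ, 0 < ℓ → ℓ ≤ 1 → ∃ u : ℕ, u % Q = e ∧
      ((Q₀ : ℝ) + 1) * 2 ^ (c * K) ≤ τ h ^ u * ℓ ∧ τ h ^ u * (ℓ / 2 ^ (K ^ (2 * κ + 1))) ≤ 2 * (1 / 2) ^ (12 * K) ∧ P K Q₀ ε h u := by
  obtain ⟨C₀, D, hD, hev⟩ := h
  obtain ⟨D', hD'⟩ := pow_unbounded_of_one_lt (Real.exp D) (show (1 : ℝ) < 2 by norm_num)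
  filter_upwards [hev, eventually_ge_atTop (D' + (c + 12) + DF * C₀ + DF), eventually_ge_atTop 1] with K hK hK2 hK1
  obtain ⟨Q₀, ε, hQ₀, hε0, hε, hmain⟩ := hK
  refine ⟨Q₀, ε, hε0, hε, fun h hh e he ℓ hℓ hℓ1 => ?_⟩
  have ht : 1 < τ h := H.hτ h hh
  have htD : τ h ≤ 2 ^ DF := (le_self_pow₀ ht.le (by have := H.hQ; omega)).trans (H.hDF h hh)
  have hX : (1 : ℝ) ≤ ((Q₀ : ℝ) + 1) * 2 ^ (c * K) := by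
    refine one_le_mul_of_one_le_of_one_le ?_ (one_le_pow₀ (by norm_num))
    have : (0 : ℝ) ≤ Q₀ := Nat.cast_nonneg _
    linarith
  obtain ⟨u₀, hu1, hu2⟩ := Pool.Agent.Helper31.LD3.first_exponent ht htD hℓ hℓ1 hX
  obtain ⟨u, h1, h2, h3, h4⟩ := hmain h hh e he u₀
  refine ⟨u, h3, hu1.trans ?_, ?_, h4⟩
  · exact mul_le_mul_of_nonneg_right (pow_le_pow_right₀ ht.le h1) hℓ.le
  · -- the numerical inequality of the exponents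
    have hnum : D' * K ^ (2 * κ) + c * K + DF + DF * (C₀ * K) + 12 * K ≤ K ^ (2 * κ + 1) := by
      have e1 : K ≤ K ^ (2 * κ) := Nat.le_self_pow (by omega) K
      have e2 : 1 ≤ K ^ (2 * κ) := Nat.one_le_pow _ _ (by omega)
      calc D' * K ^ (2 * κ) + c * K + DF + DF * (C₀ * K) + 12 * K
          = D' * K ^ (2 * κ) + (c + 12) * K + DF * C₀ * K + DF * 1 := by ring
        _ ≤ D' * K ^ (2 * κ) + (c + 12) * K ^ (2 * κ) + DF * C₀ * K ^ (2 * κ) + DF * K ^ (2 * κ) := by gcongr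
        _ = (D' + (c + 12) + DF * C₀ + DF) * K ^ (2 * κ) := by ring
        _ ≤ K * K ^ (2 * κ) := Nat.mul_le_mul_right _ hK2
        _ = K ^ (2 * κ + 1) := by ring
    have hQ' : (Q₀ : ℝ) + 1 ≤ 2 ^ (D' * K ^ (2 * κ)) := by
      refine hQ₀.trans ?_
      have e1 : D * (K : ℝ) ^ (2 * κ) = ((K ^ (2 * κ) : ℕ) : ℝ) * D := by push_cast; ring
      rw [e1, Real.exp_nat_mul, pow_mul (2 : ℝ) D']
      exact pow_le_pow_left₀ (Real.exp_pos _).le hD'.le _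
    have hu3 : τ h ^ u * ℓ ≤ 2 ^ (D' * K ^ (2 * κ) + c * K + DF + DF * (C₀ * K)) := by
      have e1 : τ h ^ u ≤ τ h ^ u₀ * (2 ^ DF) ^ (C₀ * K) := by
        obtain ⟨d, rfl⟩ := Nat.exists_eq_add_of_le h1
        rw [pow_add]
        refine mul_le_mul_of_nonneg_left ?_ (pow_nonneg (by linarith) _)
        calc τ h ^ d ≤ τ h ^ (C₀ * K) := pow_le_pow_right₀ ht.le (by omega)
          _ ≤ (2 ^ DF) ^ (C₀ * K) := pow_le_pow_left₀ (by linarith) htD _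
      calc τ h ^ u * ℓ ≤ (τ h ^ u₀ * (2 ^ DF) ^ (C₀ * K)) * ℓ := mul_le_mul_of_nonneg_right e1 hℓ.le
        _ = (τ h ^ u₀ * ℓ) * (2 ^ DF) ^ (C₀ * K) := by ring
        _ ≤ (((Q₀ : ℝ) + 1) * 2 ^ (c * K) * 2 ^ DF) * (2 ^ DF) ^ (C₀ * K) := mul_le_mul_of_nonneg_right hu2 (by positivity)
        _ ≤ (2 ^ (D' * K ^ (2 * κ)) * 2 ^ (c * K) * 2 ^ DF) * (2 ^ DF) ^ (C₀ * K) := by gcongr
        _ = 2 ^ (D' * K ^ (2 * κ) + c * K + DF + DF * (C₀ * K)) := by rw [pow_add, pow_add, pow_add, pow_mul 2 DF]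
    have hp : (0 : ℝ) < 2 ^ (K ^ (2 * κ + 1)) := by positivity
    have hp' : (0 : ℝ) < 2 ^ (12 * K) := by positivity
    have hfin : τ h ^ u * ℓ * 2 ^ (12 * K) ≤ 2 ^ (K ^ (2 * κ + 1)) := by
      calc τ h ^ u * ℓ * 2 ^ (12 * K) ≤ 2 ^ (D' * K ^ (2 * κ) + c * K + DF + DF * (C₀ * K)) * 2 ^ (12 * K) :=
            mul_le_mul_of_nonneg_right hu3 hp'.le
        _ = 2 ^ (D' * K ^ (2 * κ) + c * K + DF + DF * (C₀ * K) + 12 * K) := by rw [← pow_add]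
        _ ≤ 2 ^ (K ^ (2 * κ + 1)) := pow_le_pow_right₀ (by norm_num) hnum
    have e2 : τ h ^ u * (ℓ / 2 ^ (K ^ (2 * κ + 1))) = τ h ^ u * ℓ / 2 ^ (K ^ (2 * κ + 1)) := by ring
    have e3 : (1 / 2 : ℝ) ^ (12 * K) = 1 / 2 ^ (12 * K) := by rw [one_div_pow]
    rw [e2, e3, div_le_iff₀ hp]
    have e4 : τ h ^ u * ℓ ≤ 2 ^ (K ^ (2 * κ + 1)) / 2 ^ (12 * K) := by
      rw [le_div_iff₀ hp']
      exact hfin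
    have e5 : (0 : ℝ) ≤ 2 ^ (K ^ (2 * κ + 1)) / 2 ^ (12 * K) := by positivity
    calc τ h ^ u * ℓ ≤ 2 ^ (K ^ (2 * κ + 1)) / 2 ^ (12 * K) := e4
      _ ≤ 2 * (2 ^ (K ^ (2 * κ + 1)) / 2 ^ (12 * K)) := by linarith
      _ = 2 * (1 / 2 ^ (12 * K)) * 2 ^ (K ^ (2 * κ + 1)) := by ring

theorem ev_big4 (hκ : 1 ≤ κ) (H : Cst4 τ ty g Q R CF DF Cb m Cq G)
    (h : ∃ (C₀ : ℕ) (D : ℝ), 0 < D ∧ ∀ᶠ K : ℕ in atTop, ∃ (Q₀ : ℕ) (ε : ℝ), (Q₀ : ℝ) + 1 ≤ Real.exp (D * (K : ℝ) ^ (2 * κ)) ∧ 0 ≤ ε ∧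
      ε ≤ (1 / 2) ^ (12 * K) ∧ ∀ h < g, ∀ e < Q, ∀ u₀ : ℕ, ∃ u : ℕ, u₀ ≤ u ∧ u < u₀ + C₀ * K ∧ u % Q = e ∧
        ∀ h' < g, ∀ u' : ℕ, ¬ (h' = h ∧ u' ≡ u [MOD (ty h).1]) →
          (1 / 2 : ℝ) ^ (12 * K) < τ h' ^ u' / τ h ^ u → τ h' ^ u' / τ h ^ u < 2 ^ (12 * K) →
          (τ h' ^ u' ≤ τ h ^ u ∧ EqA (τ h ^ u / τ h' ^ u') Q₀ ε) ∨ (τ h ^ u ≤ τ h' ^ u' ∧ EqA (τ h' ^ u' / τ h ^ u) Q₀ ε)) :
    ∀ᶠ K : ℕ in atTop, Big4 κ τ ty g Q R DF Cb m Cq G K := by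
  have h1 := ev_test_gen (c := 24 + 12 * Cq) hκ H.base (fun K Q₀ ε h u =>
    ∀ h' < g, ∀ u' : ℕ, ¬ (h' = h ∧ u' ≡ u [MOD (ty h).1]) →
          (1 / 2 : ℝ) ^ (12 * K) < τ h' ^ u' / τ h ^ u → τ h' ^ u' / τ h ^ u < 2 ^ (12 * K) →
          (τ h' ^ u' ≤ τ h ^ u ∧ EqA (τ h ^ u / τ h' ^ u') Q₀ ε) ∨ (τ h ^ u ≤ τ h' ^ u' ∧ EqA (τ h' ^ u' / τ h ^ u) Q₀ ε)) h
  have h2 := Pool.Agent.Helper36.LD3.ev_num hκ R DF (Cb * (3 * m ^ 2)) G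
  filter_upwards [h1, h2] with K hK1 hK2
  exact ⟨hK2.1, hK2.2.1, hK2.2.2.1, hK2.2.2.2.1, hK2.2.2.2.2.1, hK2.2.2.2.2.2, hK1⟩

end Pool.Agent.Helper30.LD4
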